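import Pool.Agent.CPF.All

/-!
MP_b68fb8_co, Q1: the simplicial complexes of `m`-cluster parking functions are flag complexes,
for every finite real reflection group, every bipartite simple system and every `m ≥ 1`
(full positive answer).  The statement is given for both conventions for the rotation of the
generalized cluster complex (`τ_Q τ_P` and `τ_P τ_Q`).
-/

namespace Pool.Agent.Results.MP_b68fb8_co.Flag

open Pool.Agent.CPF

theorem result {V : Type*} [NormedAddCommGroup V] [InnerProductSpace ℝ V] [FiniteDimensional ℝ V]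
    (Φ : Set V) (P Q : List V) (m : ℕ) (h : Bip Φ P Q) (hm : 1 ≤ m) :
    (FlagE (CPF Φ P Q P Q m) ∧ FlagE (CPFpos Φ P Q P Q m)) ∧
      (FlagE (CPF Φ P Q Q P m) ∧ FlagE (CPFpos Φ P Q Q P m)) :=
  ⟨main_flag Φ P Q P Q m h hm (Or.inl ⟨rfl, rfl⟩),
    main_flag Φ P Q Q P m h hm (Or.inr ⟨rfl, rfl⟩)⟩

end Pool.Agent.Results.MP_b68fb8_co.Flag
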