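import Pool.Agent.CPF.All

/-!
MP_b68fb8_co: the conjectured Helly property of the set `PF` of cosets of noncrossing parabolic
subgroups, for every finite real reflection group and every Coxeter element
`c = t_{a₁} ⋯ t_{aₙ}` (product of the simple reflections in an arbitrary order).
-/

namespace Pool.Agent.Results.MP_b68fb8_co.HellyPF

open Pool.Agent.CPF

theorem result {V : Type*} [NormedAddCommGroup V] [InnerProductSpace ℝ V] [FiniteDimensional ℝ V]
    (Φ : Set V) (L : List V) (h : RS Φ L) (A : Set (Set (V ≃ₗᵢ[ℝ] V)))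
    (hA : A ⊆ PF Φ (cox L)) (hp : ∀ C ∈ A, ∀ D ∈ A, (C ∩ D).Nonempty) :
    ∃ w ∈ Wg Φ, ∀ C ∈ A, w ∈ C :=
  main_helly Φ L h A hA hp

end Pool.Agent.Results.MP_b68fb8_co.HellyPF
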